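import Pool.Agent.Helper34.CP.Goals

/-!
# Packet QF: quotients of the core are in the class
-/

open scoped ComplexOrder

namespace Pool.Agent.Helper94.CP

open Pool.Agent.Helper39.Uct Pool.Agent.Helper34.CP Pool.Agent.Helper10.Uct

/-- Quotients of type I algebras are type I. -/
theorem typeI_quot {A A' : Type} [NonUnitalCStarAlgebra A] [NonUnitalCStarAlgebra A']
    (τ : A →⋆ₙₐ[ℂ] A') (hτ : Function.Surjective τ) (h : IsTypeI A) : IsTypeI A' := by
  intro A'' _ π hπ hnt
  exact h A'' (π.comp τ) (hπ.comp hτ) hnt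

/-- A C*-algebra that embeds into a separable one is separable. -/
theorem sep_of_inj {D F : Type} [NonUnitalCStarAlgebra D] [NonUnitalCStarAlgebra F]
    [TopologicalSpace.SeparableSpace F] (j : D →⋆ₙₐ[ℂ] F) (hj : Function.Injective j) :
    TopologicalSpace.SeparableSpace D := by
  have hiso : Isometry j := NonUnitalStarAlgHom.isometry j hj
  have : SecondCountableTopology F := UniformSpace.secondCountable_of_separable F
  have : SecondCountableTopology D := hiso.isEmbedding.isInducing.secondCountableTopology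
  infer_instance

theorem QF (hBAS : S_BAS) : S_QF := by
  intro 𝒞 hT hU B _ E hE hTI F F' _ _ _ κ π hκ hκr hπ
  have hB := hBAS B E hE
  -- for each `m` a separable type I algebra with range `π (κ⁻¹ (FF E m))`
  have key : ∀ m, ∃ (D : Type) (_ : NonUnitalCStarAlgebra D) (j : D →⋆ₙₐ[ℂ] F'),
      Function.Injective j ∧ 𝒞 D ∧
        Set.range j = {z : F' | ∃ y : F, κ y ∈ FF E m ∧ π y = z} := by
    intro m
    obtain ⟨A, _, hA, ι, hι⟩ := hTI m
    have hsub : Set.range ι ⊆ Set.range κ := by
      rw [hι, hκr]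
      exact fun x hx => hB.ffBB m hx
    obtain ⟨φ, hφ⟩ := lift_hom ι κ hκ hsub
    have hrange : Set.range (π.comp φ) = {z : F' | ∃ y : F, κ y ∈ FF E m ∧ π y = z} := by
      ext z
      constructor
      · rintro ⟨a, rfl⟩
        refine ⟨φ a, ?_, rfl⟩
        rw [hφ]
        have : ι a ∈ Set.range ι := Set.mem_range_self a
        rw [hι] at this
        exact this
      · rintro ⟨y, hy, rfl⟩
        have : κ y ∈ Set.range ι := by rw [hι]; exact hy
        obtain ⟨a, ha⟩ := this
        refine ⟨a, ?_⟩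
        show π (φ a) = π y
        rw [hκ ((hφ a).trans ha)]
    -- the submodule
    let V : Submodule ℂ F' :=
      { carrier := Set.range (π.comp φ)
        add_mem' := by
          rintro _ _ ⟨a, rfl⟩ ⟨b, rfl⟩
          exact ⟨a + b, map_add _ _ _⟩
        zero_mem' := ⟨0, map_zero _⟩
        smul_mem' := by
          rintro c _ ⟨a, rfl⟩
          exact ⟨c • a, map_smul _ _ _⟩ }
    have hV : (V : Set F') = Set.range (π.comp φ) := rfl
    obtain ⟨D, _, j, hj, hjr⟩ := exists_alg V (by rw [hV]; exact t_RC _ _ _)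
      (by
        rintro _ ⟨a, rfl⟩ _ ⟨b, rfl⟩
        exact ⟨a * b, map_mul _ _ _⟩)
      (by
        rintro _ ⟨a, rfl⟩
        exact ⟨star a, map_star _ _⟩)
    obtain ⟨τ, hτ⟩ := lift_hom (π.comp φ) j hj (by rw [hjr, hV])
    have hτs : Function.Surjective τ := by
      intro d
      have : j d ∈ Set.range j := Set.mem_range_self d
      rw [hjr, hV] at this
      obtain ⟨a, ha⟩ := this
      exact ⟨a, hj ((hτ a).trans ha)⟩
    have := sep_of_inj j hj
    exact ⟨D, inferInstance, j, hj, hT D (typeI_quot τ hτs hA), by rw [hjr, hV, hrange]⟩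
  choose D instD j hj hD hr using key
  let _ := instD
  refine hU F' D j hj ?_ ?_ hD
  · intro n
    rw [hr, hr]
    rintro z ⟨y, hy, rfl⟩
    exact ⟨y, hB.ffMono n (n + 1) (Nat.le_succ n) hy, rfl⟩
  · rw [Metric.dense_iff]
    intro z ε hε
    obtain ⟨y, rfl⟩ := hπ z
    have hy : κ y ∈ BB E 0 := by
      have : κ y ∈ Set.range κ := Set.mem_range_self y
      rw [hκr] at this
      exact this
    obtain ⟨m, z', hz', hlt⟩ := hB.apx0 (κ y) hy ε hε
    have : z' ∈ Set.range κ := by rw [hκr]; exact hB.ffBB m hz'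
    obtain ⟨y', rfl⟩ := this
    refine ⟨π y', ?_, ?_⟩
    · rw [Metric.mem_ball, dist_comm, dist_eq_norm, ← map_sub]
      calc ‖π (y - y')‖ ≤ ‖y - y'‖ := NonUnitalStarAlgHom.norm_apply_le π (y - y')
        _ = ‖κ (y - y')‖ := (NonUnitalStarAlgHom.norm_map κ hκ (y - y')).symm
        _ = ‖κ y - κ y'‖ := by rw [map_sub]
        _ < ε := hlt
    · rw [Set.mem_iUnion]
      refine ⟨m, ?_⟩
      rw [hr]
      exact ⟨y', hz', rfl⟩

end Pool.Agent.Helper94.CP
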